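import Pool.Agent.Helper30.UP.St

/-!
# Project UP (MP_e73f90_co), module C9: every column is covered
-/

set_option autoImplicit false

noncomputable section

namespace Pool.Agent.Helper91.UP

open Finset Pool.Agent.Helper30.UP
open scoped Classical

namespace C9aux

theorem sum_Fh_chi {c n : ℕ} (s : Fin n → E c) (hs : Proj s) (i : Fin n) :
    ∑ x : E c, Fh s x * chi x (s i) = (2 : ℝ) ^ c := by
  have h := sum_el_Fh s (⊤ : Submodule (ZMod 2) (E c)) (s i)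
  rw [perp_top, card_top] at h
  have h1 : el (⊤ : Submodule (ZMod 2) (E c)) = univ := by ext x; simp [mem_el]
  rw [h1] at h
  rw [h]
  have h2 : (univ.filter (fun j => s j + s i ∈ (⊥ : Submodule (ZMod 2) (E c)))) = {i} := by
    ext j
    rw [mem_filter, mem_singleton, Submodule.mem_bot, E_add_eq_zero]
    constructor
    · rintro ⟨_, h⟩
      exact hs.1 h
    · rintro rfl
      exact ⟨mem_univ _, rfl⟩
  rw [h2, card_singleton]
  push_cast
  ring

/-- inclusion of multiplicities -/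
theorem mult_bound (m : ℕ) : |1 - (m : ℝ)| ≤ (if m = 0 then 1 else 0) + ((m * m - m : ℕ) : ℝ) := by
  rcases Nat.eq_zero_or_pos m with rfl | hm
  · simp
  · rw [if_neg (by omega), Nat.cast_sub (Nat.le_mul_self m)]
    have h1 : (1 : ℝ) ≤ m := by exact_mod_cast hm
    rw [abs_of_nonpos (by linarith)]
    push_cast
    nlinarith

/-- the sum over the members of a family, with multiplicities -/
theorem sum_family {c : ℕ} (A : Finset (E c)) (F : Finset (Submodule (ZMod 2) (E c)))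
    (hF : ∀ W ∈ F, ∀ x ∈ W, x ∈ A) (h : E c → ℝ) :
    ∑ W ∈ F, ∑ x ∈ el W, h x = ∑ x ∈ A, ((F.filter (fun W => x ∈ W)).card : ℝ) * h x := by
  have h1 : ∀ W ∈ F, ∑ x ∈ el W, h x = ∑ x ∈ A, if x ∈ W then h x else 0 := by
    intro W hW
    rw [← sum_filter]
    refine sum_congr ?_ fun _ _ => rfl
    ext x
    rw [mem_el, mem_filter]
    exact ⟨fun hx => ⟨hF W hW x hx, hx⟩, fun hx => hx.2⟩
  rw [sum_congr rfl h1, sum_comm]
  refine sum_congr rfl fun x _ => ?_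
  rw [← sum_filter, sum_const, nsmul_eq_mul]

theorem sum_pairs {c : ℕ} (A : Finset (E c)) (F : Finset (Submodule (ZMod 2) (E c))) :
    ∑ x ∈ A, (((F.filter (fun W => x ∈ W)).card * (F.filter (fun W => x ∈ W)).card -
      (F.filter (fun W => x ∈ W)).card : ℕ) : ℝ) ≤
    ∑ p ∈ F.offDiag, (Nat.card ↥(p.1 ⊓ p.2) : ℝ) := by
  have h1 : ∀ x : E c, (F.filter (fun W => x ∈ W)).card * (F.filter (fun W => x ∈ W)).card -
      (F.filter (fun W => x ∈ W)).card = ∑ p ∈ F.offDiag, if x ∈ p.1 ⊓ p.2 then 1 else 0 := by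
    intro x
    rw [← offDiag_card, ← card_filter]
    congr 1
    ext ⟨W, W'⟩
    simp only [mem_offDiag, mem_filter, Submodule.mem_inf]
    tauto
  have h2 : ∀ x ∈ A, (((F.filter (fun W => x ∈ W)).card * (F.filter (fun W => x ∈ W)).card -
      (F.filter (fun W => x ∈ W)).card : ℕ) : ℝ) = ∑ p ∈ F.offDiag, if x ∈ p.1 ⊓ p.2 then (1 : ℝ) else 0 := by
    intro x _
    rw [h1 x]
    push_cast
    rfl
  rw [sum_congr rfl h2, sum_comm]
  refine sum_le_sum fun p _ => ?_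
  rw [← card_el, ← sum_filter, sum_const, nsmul_eq_mul, mul_one]
  have h3 : A.filter (fun x => x ∈ p.1 ⊓ p.2) ⊆ el (p.1 ⊓ p.2) := by
    intro x hx
    rw [mem_el]
    exact (mem_filter.1 hx).2
  exact_mod_cast card_le_card h3

end C9aux

theorem hC9 (h1 : StC1) (h6 : StC6) (h7 : StC7) (h8 : StC8) : StC9 := by
  intro K T δ κ hK hT hδ hκ
  obtain ⟨κ6, hκ6, h6⟩ := h6 K T δ κ hK hT hδ hκ
  obtain ⟨κ7, hκ7, h7⟩ := h7 K T δ κ hK hT hδ hκ
  obtain ⟨κ8, n₀, hκ8, h8⟩ := h8 K T δ κ hK hT hδ hκ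
  refine ⟨n₀ + ⌈(K : ℝ) ^ 2 * κ7 + (1 + (K : ℝ) ^ 2) * κ * T * K⌉₊ + 1, ?_⟩
  intro n hn c D s F hH hF i
  by_contra hcon
  push Not at hcon
  obtain ⟨hD1, hnD, hPr, hdiv, hpos, hTn, hTD⟩ := id hH
  obtain ⟨h0D, hDs1, hDs2, -, -, τ, hτ1, hτ2, hτ3, hτ4⟩ := h1 K T c n D s hK hT hH
  obtain ⟨hFK, -⟩ := h8 n (by omega) c D s F hH hF
  obtain ⟨hF1, hF2, hF3⟩ := hF
  have hK0 : (0 : ℝ) < K := by exact_mod_cast hK
  have hN : (0 : ℝ) < 2 ^ c := by positivity
  have hn1 : (1 : ℝ) ≤ n := hT.trans hTn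
  have hn0 : (0 : ℝ) < n := by linarith
  have hnbig : (K : ℝ) ^ 2 * κ7 + (1 + (K : ℝ) ^ 2) * κ * T * K < n := by
    have h2 := Nat.le_ceil ((K : ℝ) ^ 2 * κ7 + (1 + (K : ℝ) ^ 2) * κ * T * K)
    have h3 : ⌈(K : ℝ) ^ 2 * κ7 + (1 + (K : ℝ) ^ 2) * κ * T * K⌉₊ < n := by omega
    have h4 : ((⌈(K : ℝ) ^ 2 * κ7 + (1 + (K : ℝ) ^ 2) * κ * T * K⌉₊ : ℕ) : ℝ) < n := by exact_mod_cast h3
    linarith
  -- the total sum
  have hv0 : s i ≠ 0 := hPr.2 i
  obtain ⟨g, hg⟩ : ∃ g : E c → ℝ, g = fun x => (Fh s x - τ) * chi x (s i) := ⟨_, rfl⟩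
  have hgx : ∀ x, g x = (Fh s x - τ) * chi x (s i) := fun x => by rw [hg]
  have htot : ∑ x ∈ Ds s, g x = (2 : ℝ) ^ c := by
    have h2 : ∑ x ∈ Ds s, g x = ∑ x : E c, g x := by
      apply sum_subset (subset_univ _)
      intro x _ hx
      rw [hgx, hτ3 x hx, sub_self, zero_mul]
    rw [h2]
    have h3 : ∀ x : E c, g x = Fh s x * chi x (s i) - τ * chi x (s i) := by
      intro x
      rw [hgx]
      ring
    rw [sum_congr rfl fun x _ => h3 x, sum_sub_distrib, ← mul_sum, sum_chi, if_neg hv0,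
      C9aux.sum_Fh_chi s hPr i]
    ring
  have hgle : ∀ x ∈ Ds s, |g x| ≤ 2 * n := by
    intro x hx
    rw [hgx, abs_mul, abs_chi, mul_one]
    have h2 := (hτ4 x hx).1
    have h3 := Fh_le s x
    have h4 : (0 : ℝ) ≤ D := Nat.cast_nonneg _
    rw [abs_of_nonneg (by linarith)]
    linarith
  -- the sum over the family
  have hfam := C9aux.sum_family (Ds s) F (fun W hW => (hF1 W hW).1) g
  have hW : ∀ W ∈ F, (n : ℝ) * ∑ x ∈ el W, g x ≤ K * 2 ^ c * κ7 := by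
    intro W hWF
    have h2 : ∑ x ∈ el W, g x = (Nat.card W : ℝ) * ((univ.filter (fun j => s j + s i ∈ perp W)).card : ℕ) := by
      have h3 : ∀ x ∈ el W, g x = Fh s x * chi x (s i) - τ * chi x (s i) := by
        intro x _
        rw [hgx]
        ring
      rw [sum_congr rfl h3, sum_sub_distrib, ← mul_sum, sum_el_chi, if_neg (hcon W hWF), sum_el_Fh]
      ring
    have h3 := h7 c n D s W hH (hF1 W hWF) (s i) (hcon W hWF)
    obtain ⟨-, h4, -, -⟩ := h6 c n D s W hH (hF1 W hWF)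
    have h5 : zc s W ≤ Nat.card (perp W) := by
      rw [← card_el]
      unfold zc
      refine card_le_card_of_injOn s ?_ (hPr.1.injOn)
      intro j hj
      rw [mem_coe, mem_filter] at hj
      rw [mem_coe, mem_el]
      exact hj.2
    have h6' : (Nat.card W : ℝ) * D ≤ 2 ^ c := by
      have h7' := card_perp W
      have h8' : Nat.card W * D ≤ 2 ^ c := by
        rw [← h7']
        exact Nat.mul_le_mul_left _ (h4.trans h5)
      exact_mod_cast h8'
    have h7' : (n : ℝ) * Nat.card W ≤ K * 2 ^ c := by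
      have h8' : (n : ℝ) ≤ K * D := by exact_mod_cast hnD
      calc (n : ℝ) * Nat.card W ≤ (K * D) * Nat.card W :=
            mul_le_mul_of_nonneg_right h8' (Nat.cast_nonneg _)
        _ = K * (Nat.card W * D) := by ring
        _ ≤ _ := mul_le_mul_of_nonneg_left h6' hK0.le
    rw [h2, ← mul_assoc]
    calc (n : ℝ) * Nat.card W * ((univ.filter (fun j => s j + s i ∈ perp W)).card : ℕ) ≤
          (n : ℝ) * Nat.card W * κ7 := mul_le_mul_of_nonneg_left h3 (by positivity)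
      _ ≤ _ := mul_le_mul_of_nonneg_right h7' hκ7.le
  have hsumW : (n : ℝ) * ∑ W ∈ F, ∑ x ∈ el W, g x ≤ K * (K * 2 ^ c * κ7) := by
    rw [mul_sum]
    refine (sum_le_sum hW).trans ?_
    rw [sum_const, nsmul_eq_mul]
    refine mul_le_mul_of_nonneg_right ?_ (by positivity)
    exact_mod_cast hFK
  -- the multiplicities
  have hmult : (n : ℝ) * ∑ x ∈ Ds s, |1 - ((F.filter (fun W => x ∈ W)).card : ℝ)| ≤
      (1 + (K : ℝ) ^ 2) * κ * (Ds s).card := by
    have h2 : ∑ x ∈ Ds s, |1 - ((F.filter (fun W => x ∈ W)).card : ℝ)| ≤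
        ∑ x ∈ Ds s, ((if (F.filter (fun W => x ∈ W)).card = 0 then (1 : ℝ) else 0) +
          (((F.filter (fun W => x ∈ W)).card * (F.filter (fun W => x ∈ W)).card -
            (F.filter (fun W => x ∈ W)).card : ℕ) : ℝ)) :=
      sum_le_sum fun x _ => C9aux.mult_bound _
    rw [sum_add_distrib] at h2
    have h3 : ∑ x ∈ Ds s, (if (F.filter (fun W => x ∈ W)).card = 0 then (1 : ℝ) else 0) =
        ((Ds s).filter (fun x => ∀ W ∈ F, x ∉ W)).card := by
      rw [← sum_filter, sum_const, nsmul_eq_mul, mul_one]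
      congr 2
      apply filter_congr
      intro x _
      rw [card_eq_zero, filter_eq_empty_iff]
    rw [h3] at h2
    have h4 := C9aux.sum_pairs (Ds s) F
    have h5 : (n : ℝ) * ∑ p ∈ F.offDiag, (Nat.card ↥(p.1 ⊓ p.2) : ℝ) ≤ (K : ℝ) ^ 2 * (κ * (Ds s).card) := by
      rw [mul_sum]
      have h6' : ∀ p ∈ F.offDiag, (n : ℝ) * (Nat.card ↥(p.1 ⊓ p.2) : ℝ) ≤ κ * (Ds s).card := by
        intro p hp
        rw [mem_offDiag] at hp
        exact hF2 p.1 hp.1 p.2 hp.2.1 hp.2.2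
      refine (sum_le_sum h6').trans ?_
      rw [sum_const, nsmul_eq_mul]
      refine mul_le_mul_of_nonneg_right ?_ (by positivity)
      have h7' : F.offDiag.card ≤ K ^ 2 := by
        rw [offDiag_card, pow_two]
        exact (Nat.sub_le _ _).trans (Nat.mul_le_mul hFK hFK)
      exact_mod_cast h7'
    calc (n : ℝ) * ∑ x ∈ Ds s, |1 - ((F.filter (fun W => x ∈ W)).card : ℝ)|
        ≤ n * (((Ds s).filter (fun x => ∀ W ∈ F, x ∉ W)).card + ∑ p ∈ F.offDiag, (Nat.card ↥(p.1 ⊓ p.2) : ℝ)) :=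
          mul_le_mul_of_nonneg_left (h2.trans (by linarith)) hn0.le
      _ = n * ((Ds s).filter (fun x => ∀ W ∈ F, x ∉ W)).card + n * ∑ p ∈ F.offDiag, (Nat.card ↥(p.1 ⊓ p.2) : ℝ) := by
          ring
      _ ≤ κ * (Ds s).card + (K : ℝ) ^ 2 * (κ * (Ds s).card) := add_le_add hF3 h5
      _ = _ := by ring
  have hdiff : (2 : ℝ) ^ c - ∑ W ∈ F, ∑ x ∈ el W, g x ≤
      2 * n * ∑ x ∈ Ds s, |1 - ((F.filter (fun W => x ∈ W)).card : ℝ)| := by
    rw [hfam, ← htot, ← sum_sub_distrib, mul_sum]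
    refine sum_le_sum fun x hx => ?_
    calc g x - ((F.filter (fun W => x ∈ W)).card : ℝ) * g x
        = (1 - ((F.filter (fun W => x ∈ W)).card : ℝ)) * g x := by ring
      _ ≤ |(1 - ((F.filter (fun W => x ∈ W)).card : ℝ)) * g x| := le_abs_self _
      _ = |1 - ((F.filter (fun W => x ∈ W)).card : ℝ)| * |g x| := abs_mul _ _
      _ ≤ |1 - ((F.filter (fun W => x ∈ W)).card : ℝ)| * (2 * n) :=
          mul_le_mul_of_nonneg_left (hgle x hx) (abs_nonneg _)
      _ = _ := by ring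
  -- conclusion
  have hfin : (n : ℝ) * 2 ^ c ≤ ((K : ℝ) ^ 2 * κ7 + (1 + (K : ℝ) ^ 2) * κ * T * K) * 2 ^ c := by
    have h2 : (n : ℝ) * (2 * n * ∑ x ∈ Ds s, |1 - ((F.filter (fun W => x ∈ W)).card : ℝ)|) ≤
        (1 + (K : ℝ) ^ 2) * κ * (T * K * 2 ^ c) := by
      calc (n : ℝ) * (2 * n * ∑ x ∈ Ds s, |1 - ((F.filter (fun W => x ∈ W)).card : ℝ)|)
          = 2 * n * (n * ∑ x ∈ Ds s, |1 - ((F.filter (fun W => x ∈ W)).card : ℝ)|) := by ring
        _ ≤ 2 * n * ((1 + (K : ℝ) ^ 2) * κ * (Ds s).card) := mul_le_mul_of_nonneg_left hmult (by positivity)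
        _ = (1 + (K : ℝ) ^ 2) * κ * (2 * n * (Ds s).card) := by ring
        _ ≤ _ := mul_le_mul_of_nonneg_left hDs1 (by positivity)
    have h3 : (n : ℝ) * 2 ^ c = n * (2 ^ c - ∑ W ∈ F, ∑ x ∈ el W, g x) + n * ∑ W ∈ F, ∑ x ∈ el W, g x := by ring
    rw [h3]
    have h4 := mul_le_mul_of_nonneg_left hdiff hn0.le
    calc _ ≤ (1 + (K : ℝ) ^ 2) * κ * (T * K * 2 ^ c) + K * (K * 2 ^ c * κ7) := add_le_add (h4.trans h2) hsumW
      _ = _ := by ring
  have := le_of_mul_le_mul_right hfin hN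
  linarith

end Pool.Agent.Helper91.UP
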