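import Pool.Agent.Helper30.UP.St

/-!
# Project UP (MP_e73f90_co), module POS: no weight above n/2 + K^2
-/

set_option autoImplicit false

noncomputable section

namespace Pool.Agent.Helper91.UP

open Finset Pool.Agent.Helper30.UP
open scoped Classical

theorem zc_anti {c n : ℕ} (s : Fin n → E c) {W W' : Submodule (ZMod 2) (E c)} (h : W ≤ W') :
    zc s W' ≤ zc s W := by
  unfold zc
  refine card_le_card fun i hi => ?_
  rw [mem_filter] at hi ⊢
  exact ⟨hi.1, perp_anti h hi.2⟩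

theorem nz_proj {c n : ℕ} (s : Fin n → E c) (hs : Proj s) : nz s = n := by
  unfold nz
  rw [filter_true_of_mem fun i _ => hs.2 i]
  simp

theorem n2_proj {c n : ℕ} (s : Fin n → E c) (hs : Proj s) : n2 s = n := by
  unfold n2
  have : (univ.filter (fun p : Fin n × Fin n => s p.1 ≠ 0 ∧ s p.1 = s p.2)) =
      (univ : Finset (Fin n)).image (fun i => (i, i)) := by
    ext ⟨i, j⟩
    rw [mem_filter, mem_image]
    constructor
    · rintro ⟨_, _, h⟩
      have h2 : i = j := hs.1 h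
      exact ⟨i, mem_univ _, by rw [← h2]⟩
    · rintro ⟨a, _, h⟩
      rw [Prod.mk.injEq] at h
      obtain ⟨rfl, rfl⟩ := h
      exact ⟨mem_univ _, hs.2 _, rfl⟩
  rw [this, card_image_of_injective _ (fun i j h => (Prod.mk.inj h).1)]
  simp

theorem mult_proj {c n : ℕ} (s : Fin n → E c) (hs : Proj s) (v : E c) :
    (univ.filter (fun i => s i = v)).card ≤ 1 := by
  rw [card_le_one]
  intro i hi j hj
  rw [mem_filter] at hi hj
  exact hs.1 (hi.2.trans hj.2.symm)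

theorem hPOS (hTY : StTY) (hS : StSTEP) (hP : StPUR) (hC : StCH) : StPOS := by
  intro K r hK hr
  obtain ⟨K₁, η, hK₁, hη, hstep⟩ := hS K hK
  have hK0 : (0 : ℝ) < K := by exact_mod_cast hK
  have hK4 : (0 : ℝ) < 8 * (K : ℝ) ^ 4 := by positivity
  have hK2 : (0 : ℝ) < 8 * (K : ℝ) ^ 2 := by positivity
  obtain ⟨ε, hε⟩ : ∃ ε, ε = min (1 / (8 * (K : ℝ) ^ 4)) (η / (8 * (K : ℝ) ^ 2)) := ⟨_, rfl⟩
  have hε0 : 0 < ε := by
    rw [hε]
    exact lt_min (by positivity) (by positivity)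
  have hε1 : ε ≤ 1 / (8 * (K : ℝ) ^ 4) := by rw [hε]; exact min_le_left _ _
  have hε2 : 8 * ε * (K : ℝ) ^ 2 ≤ η := by
    have h1 : ε ≤ η / (8 * (K : ℝ) ^ 2) := by rw [hε]; exact min_le_right _ _
    rw [le_div_iff₀ hK2] at h1
    linarith
  obtain ⟨A, hA1, hA⟩ := hC K K₁ η ε hK hK₁ hη hstep hε0 hε1 hε2
  obtain ⟨P, hPdef⟩ : ∃ P : ℕ, P = 2 ^ ⌈1 / ε⌉₊ := ⟨_, rfl⟩
  have hP0 : 0 < P := by rw [hPdef]; positivity
  have hP0' : (0 : ℝ) < P := by exact_mod_cast hP0
  refine ⟨8 * K ^ 4 + 1 + ⌈A (r - 2) * K * K₁ * P⌉₊ + 1 + ⌈4 * (K : ℝ) ^ 2 / η⌉₊ + 1, ?_⟩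
  intro n hn c D s hD hnD hdiv hF hPr hOm hcard
  have hn1 : 1 ≤ n := by omega
  have hn8 : 8 * K ^ 4 ≤ n := by omega
  have hn0 : (0 : ℝ) < n := by exact_mod_cast hn1
  have hn8' : 8 * (K : ℝ) ^ 4 ≤ n := by exact_mod_cast hn8
  have hnA : A (r - 2) * K * K₁ * P < n := by
    have h1 : A (r - 2) * K * K₁ * P ≤ ⌈A (r - 2) * K * K₁ * P⌉₊ := Nat.le_ceil _
    have h2 : ⌈A (r - 2) * K * K₁ * P⌉₊ < n := by omega
    have h3 : ((⌈A (r - 2) * K * K₁ * P⌉₊ : ℕ) : ℝ) < n := by exact_mod_cast h2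
    linarith
  have hnη : 4 * (K : ℝ) ^ 2 < n * η := by
    have h1 : 4 * (K : ℝ) ^ 2 / η ≤ ⌈4 * (K : ℝ) ^ 2 / η⌉₊ := Nat.le_ceil _
    have h2 : ⌈4 * (K : ℝ) ^ 2 / η⌉₊ < n := by omega
    have h3 : ((⌈4 * (K : ℝ) ^ 2 / η⌉₊ : ℕ) : ℝ) < n := by exact_mod_cast h2
    have h4 : 4 * (K : ℝ) ^ 2 / η < n := by linarith
    rw [div_lt_iff₀ hη] at h4
    exact h4
  -- a nonzero word
  obtain ⟨x₀, hx₀⟩ : ∃ x₀ : E c, x₀ ≠ 0 := by
    obtain ⟨x, hx⟩ := exists_dot (s ⟨0, hn1⟩) (hPr.2 _)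
    refine ⟨x, ?_⟩
    rintro rfl
    rw [zero_dotProduct] at hx
    exact zero_ne_one hx
  -- the typical weight
  obtain ⟨ω, hω0, ⟨x₁, hx₁⟩, hty1, hty2, -, -, -⟩ := hTY K c n D s hK hD hnD hdiv
    (by
      intro v _
      have h1 : (((univ.filter (fun i => s i = v)).card : ℕ) : ℝ) ≤ 1 := by
        exact_mod_cast mult_proj s hPr v
      nlinarith)
    ⟨x₀, hF x₀ hx₀⟩
  rw [nz_proj s hPr] at hty1
  rw [n2_proj s hPr] at hty2
  have hDr : (1 : ℝ) ≤ D := by exact_mod_cast hD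
  have hnDr : (n : ℝ) ≤ K * D := by exact_mod_cast hnD
  have hω : |(n : ℝ) - 2 * ω| ≤ 2 * (K : ℝ) ^ 2 := by
    have h2c : (0 : ℝ) < 2 ^ c := by positivity
    have h1 : |(n : ℝ) - 2 * ω| * 2 ^ c * D ^ 2 ≤ 2 * n * (n * 2 ^ c) := by
      have h3 : |(n : ℝ) - 2 * ω| * 2 ^ c * D ^ 2 ≤ 2 * n * ((univ.filter (fun x => wt s x ≠ ω)).card : ℕ) * D ^ 2 :=
        mul_le_mul_of_nonneg_right hty1 (by positivity)
      have h4 : 2 * (n : ℝ) * (((univ.filter (fun x => wt s x ≠ ω)).card : ℕ) * D ^ 2) ≤ 2 * n * (n * 2 ^ c) :=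
        mul_le_mul_of_nonneg_left hty2 (by positivity)
      calc _ ≤ _ := h3
        _ = 2 * (n : ℝ) * (((univ.filter (fun x => wt s x ≠ ω)).card : ℕ) * D ^ 2) := by ring
        _ ≤ _ := h4
    have h5 : (n : ℝ) ^ 2 ≤ (K * D) ^ 2 := pow_le_pow_left₀ hn0.le hnDr 2
    have h6 : |(n : ℝ) - 2 * ω| * (2 ^ c * D ^ 2) ≤ 2 * (K : ℝ) ^ 2 * (2 ^ c * D ^ 2) := by
      have h7 : 2 * (n : ℝ) * (n * 2 ^ c) ≤ 2 * (K : ℝ) ^ 2 * (2 ^ c * D ^ 2) := by
        have := mul_le_mul_of_nonneg_right h5 h2c.le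
        nlinarith
      calc _ = |(n : ℝ) - 2 * ω| * 2 ^ c * D ^ 2 := by ring
        _ ≤ _ := h1
        _ ≤ _ := h7
    exact le_of_mul_le_mul_right h6 (by positivity)
  have hω1 := abs_le.1 hω
  have hωOm : ω ∈ Om s := by
    unfold Om
    rw [mem_image]
    refine ⟨x₁, ?_, hx₁⟩
    rw [mem_filter]
    refine ⟨mem_univ _, ?_⟩
    rintro rfl
    rw [wt_zero] at hx₁
    exact hω0 hx₁.symm
  -- it suffices to find the other weights
  suffices hX : ∃ X : Finset ℕ, X.card = r - 1 ∧ ∀ w ∈ X, w ∈ Om s ∧ w < ω by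
    obtain ⟨X, hX1, hX2⟩ := hX
    have h1 : ω ∉ X := fun h => lt_irrefl _ (hX2 ω h).2
    have h2 : insert ω X ⊆ Om s := by
      intro w hw
      rw [mem_insert] at hw
      rcases hw with rfl | hw
      · exact hωOm
      · exact (hX2 w hw).1
    have h3 : insert ω X = Om s := by
      apply eq_of_subset_of_card_le h2
      rw [card_insert_of_notMem h1, hX1]
      omega
    intro x
    have h4 : wt s x ≤ ω := by
      by_cases hx : x = 0
      · rw [hx, wt_zero]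
        exact Nat.zero_le _
      · have h5 : wt s x ∈ Om s := by
          unfold Om
          rw [mem_image]
          exact ⟨x, by rw [mem_filter]; exact ⟨mem_univ _, hx⟩, rfl⟩
        rw [← h3, mem_insert] at h5
        rcases h5 with h5 | h5
        · exact h5.le
        · exact (hX2 _ h5).2.le
    rw [Fh_eq]
    have h5 : (wt s x : ℝ) ≤ ω := by exact_mod_cast h4
    linarith [hω1.1, hω1.2]
  rcases Nat.lt_or_ge r 2 with hr2 | hr2
  · refine ⟨∅, ?_, ?_⟩
    · have : r = 1 := by omega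
      rw [this]
      rfl
    · intro w hw
      exact absurd hw (notMem_empty w)
  obtain ⟨m, rfl⟩ : ∃ m, r = m + 2 := ⟨r - 2, by omega⟩
  rw [Nat.add_sub_cancel] at hnA
  -- the step from the whole space
  obtain ⟨W', -, hW1, hW2⟩ := hstep c n D s hD hnD hdiv hF ⊤
    (by
      intro h
      apply hx₀
      have : x₀ ∈ (⊤ : Submodule (ZMod 2) (E c)) := Submodule.mem_top
      rw [h, Submodule.mem_bot] at this
      exact this)
    (by
      intro v _
      have h1 : (((univ.filter (fun i => s i + v ∈ perp (⊤ : Submodule (ZMod 2) (E c)))).card : ℕ) : ℝ) ≤ 1 := by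
        have h2 : (univ.filter (fun i => s i + v ∈ perp (⊤ : Submodule (ZMod 2) (E c)))) =
            (univ.filter (fun i => s i = v)) := by
          apply filter_congr
          intro i _
          rw [perp_top, Submodule.mem_bot, E_add_eq_zero]
        rw [h2]
        exact_mod_cast mult_proj s hPr v
      have h3 : 1 ≤ 1 / (8 * (K : ℝ) ^ 4) * n := by
        rw [one_div, ← div_eq_inv_mul, le_div_iff₀ hK4, one_mul]
        exact hn8'
      linarith)
  obtain ⟨W'', hW3, hW4, hW5⟩ := hP ε hε0 c n s W'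
  rw [← hPdef] at hW5
  rw [card_top] at hW1
  have hz : η * n ≤ zc s W'' := by
    have h1 : (zc s W' : ℝ) ≤ zc s W'' := by exact_mod_cast zc_anti s hW3
    have h2 : (0 : ℝ) ≤ zc s (⊤ : Submodule (ZMod 2) (E c)) := Nat.cast_nonneg _
    linarith
  have hlarge : A m * (n : ℝ) ^ m < Nat.card W'' := by
    have h1 : (Nat.card W' : ℝ) ≤ P * Nat.card W'' := by exact_mod_cast hW5
    have h2 : (n : ℝ) ^ (m + 2) ≤ K * (K₁ * n * (P * Nat.card W'')) := by
      refine hcard.trans (mul_le_mul_of_nonneg_left ?_ hK0.le)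
      push_cast at hW1
      refine hW1.trans (mul_le_mul_of_nonneg_left h1 ?_)
      have : 0 < K₁ := by linarith
      positivity
    have h3 : (n : ℝ) ^ (m + 1) ≤ K * K₁ * P * Nat.card W'' := by
      have h4 : (n : ℝ) ^ (m + 1) * n ≤ (K * K₁ * P * Nat.card W'') * n := by
        calc (n : ℝ) ^ (m + 1) * n = n ^ (m + 2) := by ring
          _ ≤ _ := h2
          _ = _ := by ring
      exact le_of_mul_le_mul_right h4 hn0
    have h5 : 0 < (K : ℝ) * K₁ * P := by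
      have : 0 < K₁ := by linarith
      positivity
    have h6 : A m * (n : ℝ) ^ m * (K * K₁ * P) < Nat.card W'' * (K * K₁ * P) := by
      calc A m * (n : ℝ) ^ m * (K * K₁ * P) = (A m * K * K₁ * P) * n ^ m := by ring
        _ < n * n ^ m := mul_lt_mul_of_pos_right hnA (by positivity)
        _ = n ^ (m + 1) := by ring
        _ ≤ _ := h3
        _ = _ := by ring
    exact lt_of_mul_lt_mul_right h6 h5.le
  obtain ⟨X, hX1, hX2, hX3⟩ := hA c n D s hn1 hD hnD hdiv hF m W'' hW4 hlarge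
  refine ⟨X, ?_, ?_⟩
  · rw [hX1]
    omega
  · intro w hw
    obtain ⟨hw0, x, _, hx⟩ := hX2 w hw
    refine ⟨?_, ?_⟩
    · unfold Om
      rw [mem_image]
      refine ⟨x, ?_, hx⟩
      rw [mem_filter]
      refine ⟨mem_univ _, ?_⟩
      rintro rfl
      rw [wt_zero] at hx
      exact hw0 hx.symm
    · have h1 := hX3 w hw
      have h2 : 2 * ε * (K : ℝ) ^ 2 * n ≤ η / 4 * n := by
        refine mul_le_mul_of_nonneg_right ?_ hn0.le
        linarith
      have h3 : (w : ℝ) < ω := by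
        have h4 : 2 * (w : ℝ) ≤ n - η * n + η / 4 * n := by linarith
        have h5 : 2 * (K : ℝ) ^ 2 < 3 / 4 * (n * η) := by
          have : 0 < (K : ℝ) ^ 2 := by positivity
          linarith
        have h6 : (n : ℝ) - 2 * K ^ 2 ≤ 2 * ω := by linarith [hω1.2]
        have h7 : n - η * n + η / 4 * n = (n : ℝ) - 3 / 4 * (n * η) := by ring
        rw [h7] at h4
        linarith
      exact_mod_cast h3

end Pool.Agent.Helper91.UP
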