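import Pool.Agent.Helper9.UP.StW

/-!
# Project UP (MP_d466de_nt), module D6: a sum against an integral
-/

set_option autoImplicit false

noncomputable section

namespace Pool.Agent.Helper91.UP

open Finset Pool.Agent.Helper9.UP
open Pool.Agent.Helper9.TW (gm)

namespace D6aux

theorem gm_le' (j : ℕ) (hj : 1 ≤ j) : gm j ≤ 1 / (j : ℝ) := by
  unfold gm
  have hj' : (0 : ℝ) < j := by exact_mod_cast hj
  have h := Real.log_le_sub_one_of_pos (x := ((j : ℝ) + 1) / j) (by positivity)
  have h2 : ((j : ℝ) + 1) / j - 1 = 1 / j := by field_simp; ring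
  rw [h2] at h
  exact h

theorem inv_le_log (x : ℝ) (hx : 1 < x) : 1 / x ≤ Real.log (x / (x - 1)) := by
  have h := Real.log_le_sub_one_of_pos (x := (x - 1) / x) (div_pos (by linarith) (by linarith))
  have h1 : Real.log (x / (x - 1)) = -Real.log ((x - 1) / x) := by
    rw [← Real.log_inv, inv_div]
  have h2 : (x - 1) / x - 1 = -(1 / x) := by
    have : x ≠ 0 := by linarith
    field_simp
    ring
  rw [h1]
  rw [h2] at h
  linarith

theorem sum_inv (a b : ℕ) (ha : 2 ≤ a) (hab : a ≤ b) :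
    ∑ j ∈ Ico a b, 1 / (j : ℝ) ≤ Real.log (((b : ℝ) - 1) / (a - 1)) := by
  induction b, hab using Nat.le_induction with
  | base =>
    have : (a : ℝ) - 1 ≠ 0 := by
      have : (2 : ℝ) ≤ a := by exact_mod_cast ha
      linarith
    simp [div_self this]
  | succ b hb ih =>
    rw [sum_Ico_succ_top hb]
    have ha' : (2 : ℝ) ≤ a := by exact_mod_cast ha
    have hb' : (a : ℝ) ≤ b := by exact_mod_cast hb
    have h1 := inv_le_log (b : ℝ) (by linarith)
    push_cast
    have h2 : Real.log (((b : ℝ) + 1 - 1) / (a - 1)) =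
        Real.log (((b : ℝ) - 1) / (a - 1)) + Real.log ((b : ℝ) / (b - 1)) := by
      rw [← Real.log_mul]
      · congr 1
        have h3 : (b : ℝ) - 1 ≠ 0 := by linarith
        have h4 : (a : ℝ) - 1 ≠ 0 := by linarith
        field_simp
        ring
      · exact (div_pos (by linarith) (by linarith)).ne'
      · exact (div_pos (by linarith) (by linarith)).ne'
    rw [h2]
    linarith

theorem sum_inv' (M : ℝ) (a b : ℕ) (hab : a ≤ b) (hb : (b : ℝ) < M) :
    ∑ j ∈ Ico a b, 1 / (M - (j : ℝ)) ≤ Real.log ((M - a) / (M - b)) := by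
  induction b, hab using Nat.le_induction with
  | base => simp [div_self (show M - (a : ℝ) ≠ 0 by linarith)]
  | succ b hab ih =>
    rw [sum_Ico_succ_top hab]
    push_cast at hb
    have hab' : (a : ℝ) ≤ b := by exact_mod_cast hab
    have h1 := inv_le_log (M - b) (by linarith)
    have ih' := ih (by linarith)
    push_cast
    have h2 : Real.log ((M - a) / (M - (b + 1))) =
        Real.log ((M - a) / (M - b)) + Real.log ((M - b) / (M - b - 1)) := by
      rw [← Real.log_mul]
      · congr 1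
        have h3 : M - b ≠ 0 := by linarith
        have h4 : M - (b + 1) ≠ 0 := by linarith
        have h5 : M - b - 1 ≠ 0 := by linarith
        have h6 : M - (b + 1) = M - b - 1 := by ring
        rw [h6]
        field_simp
      · exact (div_pos (by linarith) (by linarith)).ne'
      · exact (div_pos (by linarith) (by linarith)).ne'
    rw [h2]
    linarith

theorem term_le (k v x g : ℝ) (hk : 1 ≤ k) (hv : 1 ≤ v) (hx : 1 ≤ x) (hx2 : x + 1 + 4 * v ≤ 4 * k * v)
    (hg : g ≤ 1 / x) :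
    g * (1 - x / (4 * (k + 1) * v)) * (3 * (k * v) / (4 * k * v - (x + 1))) ≤
      (1 + 1 / v) * (3 / 4) * (1 / x + 1 / (k + 1) * (1 / (4 * k * v - x))) := by
  have h1 : 0 ≤ 1 - x / (4 * (k + 1) * v) := by
    have : x / (4 * (k + 1) * v) ≤ 1 := by
      rw [div_le_one (by positivity)]
      nlinarith
    linarith
  have h2 : 0 < 4 * k * v - (x + 1) := by linarith
  have h3 : 0 < 4 * k * v - x := by linarith
  have h4 : 1 / (4 * k * v - (x + 1)) ≤ (1 + 1 / v) * (1 / (4 * k * v - x)) := by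
    have h5 : (1 + 1 / v) * (1 / (4 * k * v - x)) = (v + 1) / (v * (4 * k * v - x)) := by
      field_simp
    rw [h5, div_le_div_iff₀ h2 (by positivity)]
    nlinarith
  calc g * (1 - x / (4 * (k + 1) * v)) * (3 * (k * v) / (4 * k * v - (x + 1)))
      ≤ 1 / x * (1 - x / (4 * (k + 1) * v)) * (3 * (k * v) / (4 * k * v - (x + 1))) := by
        apply mul_le_mul_of_nonneg_right _ (by positivity)
        exact mul_le_mul_of_nonneg_right hg h1
    _ = 1 / x * (1 - x / (4 * (k + 1) * v)) * (3 * (k * v)) * (1 / (4 * k * v - (x + 1))) := by ring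
    _ ≤ 1 / x * (1 - x / (4 * (k + 1) * v)) * (3 * (k * v)) * ((1 + 1 / v) * (1 / (4 * k * v - x))) := by
        apply mul_le_mul_of_nonneg_left h4
        positivity
    _ = (1 + 1 / v) * (3 / 4) * (1 / x + 1 / (k + 1) * (1 / (4 * k * v - x))) := by
        have h6 : x ≠ 0 := by linarith
        have h7 : k + 1 ≠ 0 := by linarith
        have h8 : v ≠ 0 := by linarith
        have h9 : 4 * k * v - x ≠ 0 := h3.ne'
        field_simp
        ring

end D6aux

theorem hD6 : StD6 := by
  refine ⟨10 ^ 6, fun K hK => ⟨1000, fun u hu => ?_⟩⟩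
  have hk : (1000000 : ℝ) ≤ K := by exact_mod_cast hK
  have hv : (1000 : ℝ) ≤ u := by exact_mod_cast hu
  obtain ⟨k, hkdef⟩ : ∃ k : ℝ, k = K := ⟨_, rfl⟩
  obtain ⟨v, hvdef⟩ : ∃ v : ℝ, v = u := ⟨_, rfl⟩
  rw [← hkdef] at hk ⊢
  rw [← hvdef] at hv ⊢
  have hKu : 1000000 * 1000 ≤ K * u := Nat.mul_le_mul hK hu
  have hle : 4 * u ≤ 4 * K * u := by nlinarith
  have hab : K * u ≤ 4 * K * u - 4 * u := by
    have h1 : K * u + 4 * u ≤ 4 * K * u := by nlinarith
    omega
  have hkv : (1000000000 : ℝ) ≤ k * v := by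
    rw [hkdef, hvdef]
    exact_mod_cast hKu
  have hb : (((4 * K * u - 4 * u : ℕ) : ℕ) : ℝ) = 4 * k * v - 4 * v := by
    rw [Nat.cast_sub hle]
    push_cast
    rw [hkdef, hvdef]
  have ha : ((K * u : ℕ) : ℝ) = k * v := by
    push_cast
    rw [hkdef, hvdef]
  have hterm : ∀ j ∈ Ico (K * u) (4 * K * u - 4 * u), gm j * (1 - (j : ℝ) / (4 * (k + 1) * v)) *
      (3 * (k * v) / (4 * k * v - ((j : ℝ) + 1))) ≤
      (1 + 1 / v) * (3 / 4) * (1 / (j : ℝ) + 1 / (k + 1) * (1 / (4 * k * v - (j : ℝ)))) := by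
    intro j hj
    rw [mem_Ico] at hj
    have hj1 : 1 ≤ j := by omega
    have hj1' : (1 : ℝ) ≤ j := by exact_mod_cast hj1
    apply D6aux.term_le k v j (gm j) (by linarith) (by linarith) hj1' ?_ (D6aux.gm_le' j hj1)
    have h1 : ((j + 1 : ℕ) : ℝ) ≤ ((4 * K * u - 4 * u : ℕ) : ℝ) := by
      exact_mod_cast hj.2
    rw [hb] at h1
    push_cast at h1
    linarith
  refine (sum_le_sum hterm).trans ?_
  rw [← mul_sum, sum_add_distrib, ← mul_sum]
  have hS1 := D6aux.sum_inv (K * u) (4 * K * u - 4 * u) (by omega) hab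
  rw [hb, ha] at hS1
  have hS2 := D6aux.sum_inv' (4 * k * v) (K * u) (4 * K * u - 4 * u) hab (by rw [hb]; linarith)
  rw [hb, ha] at hS2
  generalize ∑ j ∈ Ico (K * u) (4 * K * u - 4 * u), 1 / (j : ℝ) = S1 at *
  generalize ∑ j ∈ Ico (K * u) (4 * K * u - 4 * u), 1 / (4 * k * v - (j : ℝ)) = S2 at *
  -- the first sum
  have h1 : S1 ≤ 2 * Real.log 2 + 1 / 1000000 := by
    have h2 : (4 * k * v - 4 * v - 1) / (k * v - 1) ≤ 4 * (1 + 1 / 1000000) := by
      rw [div_le_iff₀ (by linarith)]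
      nlinarith
    have h3 : 0 < (4 * k * v - 4 * v - 1) / (k * v - 1) := div_pos (by nlinarith) (by linarith)
    have h4 := Real.log_le_log h3 h2
    rw [Real.log_mul (by norm_num) (by norm_num)] at h4
    have h5 : Real.log 4 = 2 * Real.log 2 := by
      rw [show (4 : ℝ) = 2 ^ 2 by norm_num, Real.log_pow]
      push_cast
      ring
    have h6 : Real.log (1 + 1 / 1000000) ≤ 1 / 1000000 := by
      have := Real.log_le_sub_one_of_pos (x := 1 + 1 / 1000000) (by norm_num)
      linarith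
    linarith
  -- the second sum
  have h2 : 1 / (k + 1) * S2 ≤ 2 / 1000 := by
    obtain ⟨s, hs, hs0⟩ : ∃ s : ℝ, s ^ 2 = k ∧ 1000 ≤ s := by
      refine ⟨Real.sqrt k, Real.sq_sqrt (by linarith), ?_⟩
      apply Real.le_sqrt_of_sq_le
      linarith
    have h3 : (4 * k * v - k * v) / (4 * k * v - (4 * k * v - 4 * v)) ≤ k := by
      rw [div_le_iff₀ (by linarith)]
      nlinarith
    have h4 : 0 < (4 * k * v - k * v) / (4 * k * v - (4 * k * v - 4 * v)) :=
      div_pos (by linarith) (by linarith)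
    have h5 := Real.log_le_log h4 h3
    have h6 : Real.log k ≤ 2 * s := by
      rw [← hs, Real.log_pow]
      have := Real.log_le_sub_one_of_pos (x := s) (by linarith)
      push_cast
      linarith
    have h7 : S2 ≤ 2 * s := by linarith
    have h8 : 1 / (k + 1) * S2 ≤ 1 / (k + 1) * (2 * s) := mul_le_mul_of_nonneg_left h7 (by positivity)
    have h9 : 1 / (k + 1) * (2 * s) ≤ 2 / 1000 := by
      rw [one_div_mul_eq_div, div_le_iff₀ (by linarith), ← hs]
      nlinarith
    linarith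
  have h3 : 1 / v ≤ 1 / 1000 := one_div_le_one_div_of_le (by norm_num) hv
  have h4 : 0 ≤ 1 / v := by positivity
  have h5 := Real.log_two_lt_d9
  have h6 : S1 + 1 / (k + 1) * S2 ≤ 139 / 100 := by linarith
  calc (1 + 1 / v) * (3 / 4) * (S1 + 1 / (k + 1) * S2) ≤ (1 + 1 / v) * (3 / 4) * (139 / 100) :=
        mul_le_mul_of_nonneg_left h6 (by positivity)
    _ ≤ 105 / 100 := by linarith

end Pool.Agent.Helper91.UP
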