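import Pool.Agent.Helper9.UP.StC

/-!
# Project UP (MP_d466de_nt), module EN: the end
-/

set_option autoImplicit false

noncomputable section

namespace Pool.Agent.Helper91.UP

open Finset Polynomial Pool.Agent.Helper9.UP

namespace ENaux

theorem len_ge (f : ℤ[X]) : f.natDegree + 1 ≤ len f := by
  unfold len
  calc f.natDegree + 1 = ∑ _k ∈ range (f.natDegree + 1), 1 := by simp
    _ ≤ _ := sum_le_sum fun k _ => le_max_left _ _

theorem coeff_le (f : ℤ[X]) (k : ℕ) : |((f.coeff k : ℤ) : ℝ)| ≤ Real.exp (len f) := by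
  by_cases hk : k ≤ f.natDegree
  · have h1 : Nat.size (f.coeff k).natAbs ≤ len f := by
      unfold len
      refine (le_max_right 1 _).trans ?_
      exact single_le_sum (f := fun k => max 1 (Nat.size (f.coeff k).natAbs)) (fun _ _ => Nat.zero_le _)
        (mem_range.2 (by omega))
    have h2 : (f.coeff k).natAbs < 2 ^ Nat.size (f.coeff k).natAbs := Nat.lt_size_self _
    have h3 : (f.coeff k).natAbs ≤ 2 ^ len f :=
      h2.le.trans (Nat.pow_le_pow_right (by norm_num) h1)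
    have h4 : |((f.coeff k : ℤ) : ℝ)| = ((f.coeff k).natAbs : ℝ) := by
      rw [Nat.cast_natAbs, Int.cast_abs]
    rw [h4]
    calc ((f.coeff k).natAbs : ℝ) ≤ ((2 ^ len f : ℕ) : ℝ) := by exact_mod_cast h3
      _ = (2 : ℝ) ^ len f := by push_cast; rfl
      _ ≤ (Real.exp 1) ^ len f := by
          apply pow_le_pow_left₀ (by norm_num)
          have := Real.add_one_le_exp (1 : ℝ)
          linarith
      _ = Real.exp (len f) := by rw [← Real.exp_nat_mul, mul_one]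
  · rw [Polynomial.coeff_eq_zero_of_natDegree_lt (by omega)]
    simp only [Int.cast_zero, abs_zero]
    exact (Real.exp_pos _).le

theorem adm (f : ℤ[X]) (hirr : Irreducible f) (hd : 1 ≤ f.natDegree) (Λ : ℝ) (hΛ : (len f : ℝ) ≤ Λ) :
    Adm Λ f := by
  refine ⟨hirr, hd, ?_, ?_⟩
  · have h1 : f.natDegree ≤ len f := (Nat.le_succ _).trans (len_ge f)
    have h2 : (f.natDegree : ℝ) ≤ len f := by exact_mod_cast h1
    exact h2.trans hΛ
  · intro k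
    exact (coeff_le f k).trans (Real.exp_le_exp.2 hΛ)

theorem exp_big (C : ℝ) : ∃ Λ₁ : ℝ, ∀ Λ : ℝ, Λ₁ ≤ Λ → C * Λ ^ 5 ≤ Real.exp (Λ / 16) := by
  have h1 := ((isLittleO_pow_exp_pos_mul_atTop 5 (by norm_num : (0 : ℝ) < 1 / 16)).const_mul_left C).bound
    one_pos
  obtain ⟨Λ₁, hΛ₁⟩ := Filter.eventually_atTop.1 h1
  refine ⟨Λ₁, fun Λ hΛ => ?_⟩
  have h2 := hΛ₁ Λ hΛ
  rw [one_mul, Real.norm_of_nonneg (Real.exp_pos _).le] at h2
  have h3 := le_abs_self (C * Λ ^ 5)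
  rw [← Real.norm_eq_abs] at h3
  have h4 : (1 / 16 : ℝ) * Λ = Λ / 16 := by ring
  rw [h4] at h2
  linarith

end ENaux

theorem hEN (hFA : StFA) (hFB : StFB) (hNU : StNU) (hDI : StDI) : StEN := by
  obtain ⟨κA, δA, ω, ε, cA, BA, BsA, CA, LA, j0, Nm, a1, a2, a3, a4, a5, a6, a7, a8, a9, hA⟩ := hFA
  obtain ⟨κB, δB, θ, cB, BB, BsB, CB, LB, b1, b2, b3, b4, b5, b6, b7, hB⟩ := hFB
  have hj0 : (1 : ℝ) ≤ j0 := by exact_mod_cast a8
  have hθA : 0 < (j0 : ℝ) * ω := by positivity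
  obtain ⟨CNA, LNA, hNA⟩ := hNU κA δA ((j0 : ℝ) * ω) BA BsA a1 a2 hθA a6 a7
  obtain ⟨CNB, LNB, hNB⟩ := hNU κB δB θ BB BsB b1 b2 b3 b6 b7
  obtain ⟨C₁, hC₁⟩ : ∃ C₁ : ℝ, CA ≤ C₁ ∧ CB ≤ C₁ ∧ CNA ≤ C₁ ∧ CNB ≤ C₁ ∧ 2 ≤ C₁ ∧
      1 / ((j0 : ℝ) * ω) ≤ C₁ ∧ 1 / θ ≤ C₁ := by
    refine ⟨|CA| + |CB| + |CNA| + |CNB| + 2 + 1 / ((j0 : ℝ) * ω) + 1 / θ, ?_⟩
    have h1 := le_abs_self CA
    have h2 := le_abs_self CB
    have h3 := le_abs_self CNA
    have h4 := le_abs_self CNB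
    have h5 := abs_nonneg CA
    have h6 := abs_nonneg CB
    have h7 := abs_nonneg CNA
    have h8 := abs_nonneg CNB
    have h9 : 0 < 1 / ((j0 : ℝ) * ω) := by positivity
    have h10 : 0 < 1 / θ := by positivity
    refine ⟨?_, ?_, ?_, ?_, ?_, ?_, ?_⟩ <;> linarith
  obtain ⟨c1, c2, c3, c4, c5, c6, c7⟩ := hC₁
  obtain ⟨C₂, LD, hD⟩ := hDI ω ε θ C₁ j0 Nm a3 a4 b3 b4 (by linarith) a8
  obtain ⟨LE, hE⟩ := ENaux.exp_big C₂
  obtain ⟨L₀, hL₀⟩ : ∃ L₀ : ℝ, LA ≤ L₀ ∧ LB ≤ L₀ ∧ LNA ≤ L₀ ∧ LNB ≤ L₀ ∧ LD ≤ L₀ ∧ LE ≤ L₀ ∧ 1 ≤ L₀ := by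
    refine ⟨|LA| + |LB| + |LNA| + |LNB| + |LD| + |LE| + 1, ?_⟩
    have h1 := le_abs_self LA
    have h2 := le_abs_self LB
    have h3 := le_abs_self LNA
    have h4 := le_abs_self LNB
    have h5 := le_abs_self LD
    have h6 := le_abs_self LE
    have g1 := abs_nonneg LA
    have g2 := abs_nonneg LB
    have g3 := abs_nonneg LNA
    have g4 := abs_nonneg LNB
    have g5 := abs_nonneg LD
    have g6 := abs_nonneg LE
    refine ⟨?_, ?_, ?_, ?_, ?_, ?_, ?_⟩ <;> linarith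
  obtain ⟨l1, l2, l3, l4, l5, l6, l7⟩ := hL₀
  have hc' : 0 < min cA cB := lt_min a5 b5
  refine ⟨(|C₂| + 1) * L₀ ^ 5, min cA cB / 2, by positivity, by positivity, ?_⟩
  intro f hirr hdeg hlc hNFD
  obtain ⟨Λ, hΛ⟩ : ∃ Λ : ℝ, Λ = max (len f : ℝ) L₀ := ⟨_, rfl⟩
  have hΛ0 : L₀ ≤ Λ := by rw [hΛ]; exact le_max_right _ _
  have hΛl : (len f : ℝ) ≤ Λ := by rw [hΛ]; exact le_max_left _ _
  have hlen : (1 : ℝ) ≤ len f := by
    have := ENaux.len_ge f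
    have h2 : 1 ≤ len f := by omega
    exact_mod_cast h2
  have hΛle : Λ ≤ L₀ * len f := by
    rw [hΛ]
    apply max_le
    · nlinarith
    · nlinarith
  have hΛ1 : 1 ≤ Λ := by linarith
  have hΛ5 : 1 ≤ Λ ^ 5 := one_le_pow₀ hΛ1
  have hadm := ENaux.adm f hirr hdeg Λ hΛl
  obtain ⟨N, hN1, hN2, hcase⟩ := hD Λ (l5.trans hΛ0) f hadm
  have hN3 : Real.log N ≤ Real.exp (Λ / 16) := hN2.trans (hE Λ (l6.trans hΛ0))
  have hmul : ∀ c : ℝ, c ≤ C₁ → c * Λ ^ 5 ≤ Real.log N := fun c hc =>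
    (mul_le_mul_of_nonneg_right hc (by linarith)).trans hN1
  have hlogN : C₁ ≤ Real.log N := by
    have : C₁ * 1 ≤ C₁ * Λ ^ 5 := mul_le_mul_of_nonneg_left hΛ5 (by linarith)
    linarith
  have hN0 : 0 < N := by
    rcases Nat.eq_zero_or_pos N with h | h
    · rw [h] at hlogN
      simp at hlogN
      linarith
    · exact h
  have hN0' : (0 : ℝ) < N := by exact_mod_cast hN0
  have hN4 : (4 : ℝ) ≤ N := by
    have h1 : Real.exp 2 ≤ N := by
      rw [← Real.exp_log hN0']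
      exact Real.exp_le_exp.2 (by linarith)
    have h2 : (4 : ℝ) ≤ Real.exp 2 := by
      have h3 := Real.add_one_le_exp (1 : ℝ)
      have h4 : Real.exp 2 = Real.exp 1 * Real.exp 1 := by rw [← Real.exp_add]; norm_num
      rw [h4]
      nlinarith
    linarith
  have hpow2 : ∀ t : ℝ, 0 < t → 1 / t ≤ C₁ → 2 ≤ (N : ℝ) ^ t := by
    intro t ht htC
    rw [Real.rpow_def_of_pos hN0']
    have h1 : 1 ≤ Real.log N * t := by
      have : 1 / t ≤ Real.log N := htC.trans hlogN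
      rwa [div_le_iff₀ ht] at this
    have h2 := Real.add_one_le_exp (Real.log N * t)
    linarith
  have hpowN : ∀ t : ℝ, t ≤ 1 → (N : ℝ) ^ t ≤ N := by
    intro t ht
    calc (N : ℝ) ^ t ≤ (N : ℝ) ^ (1 : ℝ) := Real.rpow_le_rpow_of_exponent_le (by linarith) ht
      _ = N := Real.rpow_one _
  -- the good values
  obtain ⟨c, hc, hcard⟩ : ∃ c : ℝ, min cA cB ≤ c ∧ (N : ℝ) ^ (3 / 4 : ℝ) ≤ ((Gd f N c).card : ℝ) := by
    rcases hcase with hreg | hsum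
    · refine ⟨cA, min_le_left _ _, ?_⟩
      refine le_trans ?_ (hA Λ (l1.trans hΛ0) f hadm hlc hNFD N (hmul CA c1) hN3 hreg)
      have h2 := hpow2 ((j0 : ℝ) * ω) hθA c6
      have h3 := hpowN ((j0 : ℝ) * ω) (by linarith)
      have h4 : 1 ≤ ⌈(N : ℝ) ^ ((j0 : ℝ) * ω)⌉₊ := Nat.one_le_ceil_iff.2 (by linarith)
      have h5 : (((⌈(N : ℝ) ^ ((j0 : ℝ) * ω)⌉₊ - 1 : ℕ) : ℕ) : ℝ) = (⌈(N : ℝ) ^ ((j0 : ℝ) * ω)⌉₊ : ℝ) - 1 := by
        rw [Nat.cast_sub h4]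
        push_cast
        rfl
      have h6 := Nat.le_ceil ((N : ℝ) ^ ((j0 : ℝ) * ω))
      have h7 := Nat.ceil_lt_add_one (a := (N : ℝ) ^ ((j0 : ℝ) * ω)) (by linarith)
      apply hNA Λ (l3.trans hΛ0) f hadm N _ (hmul CNA c3) hN3
      · rw [h5]
        linarith
      · have h8 : (((⌈(N : ℝ) ^ ((j0 : ℝ) * ω)⌉₊ - 1 : ℕ) : ℕ) : ℝ) ≤ (N : ℝ) := by
          rw [h5]
          linarith
        exact_mod_cast h8
    · refine ⟨cB, min_le_right _ _, ?_⟩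
      refine le_trans ?_ (hB Λ (l2.trans hΛ0) f hadm hlc hNFD N (hmul CB c2) hN3 hsum)
      have h2 := hpow2 θ b3 c7
      have h3 := hpowN θ b4.le
      have h6 := Nat.floor_le (a := (N : ℝ) ^ θ) (by linarith)
      have h7 := Nat.lt_floor_add_one ((N : ℝ) ^ θ)
      apply hNB Λ (l4.trans hΛ0) f hadm N _ (hmul CNB c4) hN3
      · linarith
      · have h8 : ((⌊(N : ℝ) ^ θ⌋₊ : ℕ) : ℝ) ≤ (N : ℝ) := by linarith
        exact_mod_cast h8
  refine ⟨2 * N, by omega, ?_, ?_⟩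
  · -- size of X
    have h1 : ((2 * N : ℕ) : ℝ) = Real.exp (Real.log 2 + Real.log N) := by
      rw [Real.exp_add, Real.exp_log (by norm_num), Real.exp_log hN0']
      push_cast
      rfl
    rw [h1, Real.exp_le_exp]
    have h2 : Real.log 2 ≤ 1 := by
      have := Real.log_two_lt_d9
      linarith
    have h3 : C₂ * Λ ^ 5 ≤ |C₂| * Λ ^ 5 := mul_le_mul_of_nonneg_right (le_abs_self _) (by linarith)
    have h4 : Λ ^ 5 ≤ (L₀ * len f) ^ 5 := pow_le_pow_left₀ (by linarith) hΛle 5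
    have h5 : (|C₂| + 1) * Λ ^ 5 ≤ (|C₂| + 1) * (L₀ * len f) ^ 5 :=
      mul_le_mul_of_nonneg_left h4 (by positivity)
    calc Real.log 2 + Real.log N ≤ 1 * Λ ^ 5 + |C₂| * Λ ^ 5 := by linarith
      _ = (|C₂| + 1) * Λ ^ 5 := by ring
      _ ≤ _ := h5
      _ = (|C₂| + 1) * L₀ ^ 5 * (len f : ℝ) ^ 5 := by ring
  · -- the number of good values
    have h1 : ((2 * N : ℕ) : ℝ) ^ (1 / 2 : ℝ) ≤ (N : ℝ) ^ (3 / 4 : ℝ) := by
      push_cast
      have h2 : 2 * (N : ℝ) ≤ (N : ℝ) ^ (3 / 2 : ℝ) := by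
        have h3 : (N : ℝ) ^ (3 / 2 : ℝ) = (N : ℝ) ^ (1 / 2 : ℝ) * N := by
          rw [show (3 / 2 : ℝ) = 1 / 2 + 1 by norm_num, Real.rpow_add hN0', Real.rpow_one]
        have h4 : (2 : ℝ) ≤ (N : ℝ) ^ (1 / 2 : ℝ) := by
          rw [← Real.sqrt_eq_rpow]
          apply Real.le_sqrt_of_sq_le
          linarith
        rw [h3]
        exact mul_le_mul_of_nonneg_right h4 hN0'.le
      calc (2 * (N : ℝ)) ^ (1 / 2 : ℝ) ≤ ((N : ℝ) ^ (3 / 2 : ℝ)) ^ (1 / 2 : ℝ) :=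
            Real.rpow_le_rpow (by positivity) h2 (by norm_num)
        _ = (N : ℝ) ^ (3 / 4 : ℝ) := by
            rw [← Real.rpow_mul hN0'.le]
            norm_num
    refine h1.trans (hcard.trans ?_)
    have hX : ((2 * N : ℕ) : ℝ) ^ (min cA cB / 2) ≤ (N : ℝ) ^ c := by
      push_cast
      calc (2 * (N : ℝ)) ^ (min cA cB / 2) ≤ ((N : ℝ) ^ (2 : ℝ)) ^ (min cA cB / 2) := by
            apply Real.rpow_le_rpow (by positivity) _ (by positivity)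
            have : (N : ℝ) ^ (2 : ℝ) = N * N := by
              rw [show (2 : ℝ) = 1 + 1 by norm_num, Real.rpow_add hN0', Real.rpow_one]
            rw [this]
            nlinarith
        _ = (N : ℝ) ^ (min cA cB) := by
            rw [← Real.rpow_mul hN0'.le]
            congr 1
            ring
        _ ≤ (N : ℝ) ^ c := Real.rpow_le_rpow_of_exponent_le (by linarith) hc
    have hfin : Finite {m : ℕ // 1 ≤ m ∧ m ≤ 2 * N ∧ 1 < val f m ∧
        ArithmeticFunction.cardFactors (val f m) ≤ f.natDegree + 1 ∧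
        ∀ p : ℕ, p.Prime → p ∣ val f m → ((2 * N : ℕ) : ℝ) ^ (min cA cB / 2) < (p : ℝ)} := by
      apply Set.Finite.to_subtype
      exact (Set.finite_Iic (2 * N)).subset fun m hm => hm.2.1
    have hle : (Gd f N c).card ≤ Nat.card {m : ℕ // 1 ≤ m ∧ m ≤ 2 * N ∧ 1 < val f m ∧
        ArithmeticFunction.cardFactors (val f m) ≤ f.natDegree + 1 ∧
        ∀ p : ℕ, p.Prime → p ∣ val f m → ((2 * N : ℕ) : ℝ) ^ (min cA cB / 2) < (p : ℝ)} := by
      have h2 : (Gd f N c).card = Nat.card (Gd f N c) := by simp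
      rw [h2]
      have hmem : ∀ m : Gd f N c, 1 ≤ (m : ℕ) ∧ (m : ℕ) ≤ 2 * N ∧ 1 < val f m ∧
          ArithmeticFunction.cardFactors (val f m) ≤ f.natDegree + 1 ∧
          ∀ p : ℕ, p.Prime → p ∣ val f m → ((2 * N : ℕ) : ℝ) ^ (min cA cB / 2) < (p : ℝ) := by
        rintro ⟨m, hm⟩
        classical
        unfold Gd at hm
        have hm2 := Finset.mem_filter.1 hm
        have hm3 := Finset.mem_Ioc.1 hm2.1
        replace hm := And.intro hm3 hm2.2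
        refine ⟨by show 1 ≤ m; omega, hm.1.2, hm.2.1, hm.2.2.1, ?_⟩
        intro p hp hpm
        exact lt_of_le_of_lt hX (hm.2.2.2 p hp hpm)
      apply Nat.card_le_card_of_injective (fun m : Gd f N c => ⟨(m : ℕ), hmem m⟩)
      intro m m' hmm
      apply Subtype.ext
      exact (Subtype.mk.injEq _ _ _ _).mp hmm
    exact_mod_cast hle

end Pool.Agent.Helper91.UP
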